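import Pool.Agent.helper76.FF2.Spec

set_option autoImplicit false

namespace Pool.Agent.FF2

open Polynomial

theorem SGN_pow {F : Type*} [Field F] [Fintype F] [CharP F 2] {m : ℕ} (hm : Fintype.card F = 2 ^ m)
    (s : Finset (AlgebraicClosure F)) (f : AlgebraicClosure F → AlgebraicClosure F) :
    (∑ x ∈ s, f x) ^ Fintype.card F = ∑ x ∈ s, f x ^ Fintype.card F := by
  rw [hm]
  exact sum_pow_char_pow _ _ _ _

theorem SGN_add {F : Type*} [Field F] [Fintype F] [CharP F 2] {m : ℕ} (hm : Fintype.card F = 2 ^ m)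
    (x y : AlgebraicClosure F) :
    (x + y) ^ Fintype.card F = x ^ Fintype.card F + y ^ Fintype.card F := by
  rw [hm]
  exact add_pow_char_pow _ _ _ _

theorem SGN_u {F : Type*} [Field F] [Fintype F] [CharP F 2] (h3 : RTS_stmt F) {m : ℕ}
    (hm : Fintype.card F = 2 ^ m) (P H : F[X]) :
    (∑ x ∈ rs P, ∑ y ∈ rs H, x / (x + y)) ^ Fintype.card F = ∑ x ∈ rs P, ∑ y ∈ rs H, x / (x + y) := by
  obtain ⟨-, -, r3, r4, -⟩ := h3
  refine r4 P (fun x => ∑ y ∈ rs H, x / (x + y)) ?_
  intro x _
  show ∑ y ∈ rs H, x ^ Fintype.card F / (x ^ Fintype.card F + y) = (∑ y ∈ rs H, x / (x + y)) ^ Fintype.card F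
  rw [SGN_pow hm, ← r3 H (fun y => x ^ Fintype.card F / (x ^ Fintype.card F + y))]
  refine Finset.sum_congr rfl fun y _ => ?_
  rw [div_pow, SGN_add hm]

theorem SGN (F : Type*) [Field F] [Fintype F] [CharP F 2] (h1 : BAD_stmt (AlgebraicClosure F))
    (h2 : BT0_stmt (AlgebraicClosure F)) (h3 : RTS_stmt F) (h4 : BIR_stmt F) : SGN_stmt F := by
  intro m hm G hG hs
  obtain ⟨b1, b2, b3, -, -, -⟩ := h2
  induction hn : G.natDegree using Nat.strong_induction_on generalizing G with
  | _ n ih =>
    by_cases hu : IsUnit G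
    · have h : G = 1 := hG.eq_one_of_isUnit hu
      subst h
      have h0 : rs (1 : F[X]) = ∅ := by
        unfold rs
        rw [aroots_one]
        simp
      have h5 : Bp (∅ : Finset (AlgebraicClosure F)) = 0 := by
        unfold Bp
        rfl
      rw [natDegree_one] at hn
      rw [h0, h5, b2, UniqueFactorizationMonoid.factors_one, Multiset.card_zero, ← hn]
      simp
    · obtain ⟨P, hP, hi, B, hB⟩ := exists_monic_irreducible_factor G hu
      have hBm : B.Monic := hP.of_mul_monic_left (by rw [← hB]; exact hG)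
      subst hB
      have hcop : IsCoprime P B := by
        rw [hi.coprime_iff_not_dvd]
        rintro ⟨C', rfl⟩
        have := hs P ⟨C', by ring⟩
        exact hi.not_isUnit this
      have hsB : Squarefree B := hs.squarefree_of_dvd (dvd_mul_left _ _)
      have hdm : (P * B).natDegree = P.natDegree + B.natDegree := hP.natDegree_mul hBm
      have hdeg : B.natDegree < n := by
        have := hi.natDegree_pos
        omega
      have ihB := ih _ hdeg B hBm hsB rfl
      have hPi := h4 m hm P hP hi
      obtain ⟨hd, hrs⟩ := h3.2.2.2.2 P B hP.ne_zero hBm.ne_zero hcop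
      have hu1 := SGN_u h3 hm P B
      set u := ∑ x ∈ rs P, ∑ y ∈ rs B, x / (x + y) with hudef
      have hcard : Multiset.card (UniqueFactorizationMonoid.factors (P * B)) =
          1 + Multiset.card (UniqueFactorizationMonoid.factors B) := by
        rw [Multiset.card_eq_card_of_rel (UniqueFactorizationMonoid.factors_mul hP.ne_zero hBm.ne_zero),
          Multiset.card_add, UniqueFactorizationMonoid.card_factors_of_irreducible hi]
      have e1 : Bp ((rs P).disjUnion (rs B) hd) = Bp (rs P) + Bp (rs B) + (u ^ 2 + u) := by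
        rw [h1 (rs P) (rs B) hd, hudef]
        ring
      have e2 : bt m (u ^ 2 + u) = 0 := by
        rw [b3, ← hm, hu1, CharTwo.add_self_eq_zero]
      rw [hrs, e1, b1, b1, e2, hPi, ihB, ← hn, hdm, hcard]
      push_cast
      ring

end Pool.Agent.FF2
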